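import Pool.Agent.Helper78.Ep.Goals

/-!
# Itinerary machines: the evaluation of the polynomials in one level
-/

namespace Pool.Agent.Helper75.Ep

open Pool.Agent.Helper65.LinSpace Pool.Agent.Helper28.Ram Finset Pool.Agent.Helper78.Ep
open Pool.Agent.Helper28.Ram.Mach (sgz)
open Pool.Agent.Helper78.Ep (Mach)
open Pool.Agent.Helper78.Ep.Mach (addR scaR)

section

variable {m : Pool.Agent.Helper78.Ep.Mach} {p : ℕ}

/-- The states. -/
abbrev Sta (p : ℕ) : Type := Pool.Agent.Helper78.Ep.Mach.St p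

/-- The registers of `s'` are `R`, and above the level `l` the state `s'` is the same as `s`. -/
structure Up (m : Pool.Agent.Helper78.Ep.Mach) (l : ℕ) (s : Sta p) (R : ℕ → ZMod p)
    (s' : Sta p) : Prop where
  hR : s'.R = R
  lev : ∀ k, l + 1 ≤ k → s'.md k = s.md k ∧ s'.nd k = s.nd k ∧ s'.sg k = s.sg k
  rest : ∀ k, l + 1 ≤ k * (m.G + 2) → s'.qa k = s.qa k

theorem Up.refl (l : ℕ) (s : Sta p) : Up m l s s.R s :=
  ⟨rfl, fun _ _ => ⟨rfl, rfl, rfl⟩, fun _ _ => rfl⟩

theorem Up.call {l : ℕ} {s : Sta p} {R : ℕ → ZMod p} {s' : Sta p}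
    (h : Up m l s R s') (c i g : ℕ) : Up m l s R (s'.call l c i g) := by
  refine ⟨h.hR, fun k hk => ?_, h.rest⟩
  have hne : k ≠ l := by omega
  simp only [Pool.Agent.Helper78.Ep.Mach.St.call, Function.update_of_ne hne]
  exact h.lev k hk

theorem Up.agree {l : ℕ} {s : Sta p} {R : ℕ → ZMod p} {s' : Sta p}
    (h : Up m l s R s') : m.Agree (l + 1) s' { s with R := R } :=
  ⟨h.hR, h.lev, h.rest⟩

theorem ideal_idle {l : ℕ} {s : Sta p} (h : s.md l = 0) : m.ideal l s = s := by
  cases l with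
  | zero =>
    show (if s.md 0 = 1 ∧ _ then _ else _) = _
    rw [if_neg (by omega)]
  | succ l =>
    show (if s.md (l + 1) = 2 ∧ _ then _ else if s.md (l + 1) = 1 ∧ _ then _ else _) = _
    rw [if_neg (by omega), if_neg (by omega)]

theorem lo_top (j : ℕ) : m.lo (m.G + j) = m.G * m.wn + j * m.wc := by
  unfold Pool.Agent.Helper78.Ep.Mach.lo
  rw [if_neg (by omega), Nat.add_sub_cancel_left]

theorem ln_top (j : ℕ) : m.ln (m.G + j) = m.wc := by
  unfold Pool.Agent.Helper78.Ep.Mach.ln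
  rw [if_neg (by omega)]

theorem ideal_top {l : ℕ} (hl : l % (m.G + 2) = 0) {s : Sta p} (hmd : s.md l = 1) {j : ℕ}
    (hj : j ≤ m.E) (hnd : s.nd l = m.G + j) :
    m.ideal l s = { s with
      R := addR (m.G * m.wn + j * m.wc) m.wc (fun o => sgz p (s.sg l) *
        m.T p (l / (m.G + 2)) (s.qa (l / (m.G + 2))) o) s.R } := by
  cases l with
  | zero =>
    show (if s.md 0 = 1 ∧ _ then _ else _) = _
    rw [if_pos ⟨hmd, by omega, by omega⟩, Nat.zero_div, hnd, lo_top]
  | succ l =>
    have h1 : l % (m.G + 2) = m.G + 1 ∧ (l + 1) / (m.G + 2) = l / (m.G + 2) + 1 := by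
      obtain ⟨c, hc⟩ := Nat.dvd_of_mod_eq_zero hl
      have hc0 : 0 < c := by
        rcases Nat.eq_zero_or_pos c with h | h
        · subst h
          simp at hc
        · exact h
      obtain ⟨c', rfl⟩ : ∃ c', c = c' + 1 := ⟨c - 1, by omega⟩
      have hl' : l = (m.G + 2) * c' + (m.G + 1) := by
        have : (m.G + 2) * (c' + 1) = (m.G + 2) * c' + (m.G + 2) := by ring
        omega
      constructor
      · rw [hl', Nat.mul_add_mod, Nat.mod_eq_of_lt (by omega)]
      · rw [hc, Nat.mul_div_cancel_left _ (by omega), hl', Nat.mul_add_div (by omega),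
          Nat.div_eq_of_lt (by omega : m.G + 1 < m.G + 2)]
    show (if s.md (l + 1) = 2 ∧ _ then _ else if s.md (l + 1) = 1 ∧ _ then _ else _) = _
    rw [if_neg (by omega), if_pos ⟨hmd, by rw [hnd, h1.1]; omega, by omega⟩]
    rw [hnd, h1.2, lo_top, ln_top]
    unfold Pool.Agent.Helper78.Ep.Mach.V Pool.Agent.Helper78.Ep.Mach.vn
      Pool.Agent.Helper78.Ep.Mach.T
    rw [if_neg (by omega)]

/-- A call of the level `l` with mode `0`. -/
theorem Up.call0 {l : ℕ} {s : Sta p} {R : ℕ → ZMod p} {s' : Sta p} (h : Up m l s R s')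
    (R' : ℕ → ZMod p) (i g : ℕ) :
    Up m l s R' (m.ideal l (({ s' with R := R' } : Sta p).call l 0 i g)) := by
  rw [ideal_idle (by simp [Pool.Agent.Helper78.Ep.Mach.St.call])]
  refine Up.call ?_ _ _ _
  exact ⟨rfl, h.lev, h.rest⟩

/-- A call of the level `l` with mode `1`. -/
theorem Up.call1 {l k : ℕ} (hl : l % (m.G + 2) = 0) (hk : l / (m.G + 2) = k) {s : Sta p}
    {R : ℕ → ZMod p} {s' : Sta p} (h : Up m l s R s') (R' : ℕ → ZMod p) (q : ℕ) {j : ℕ}
    (hj : j ≤ m.E) (g : ℕ) :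
    Up m l s (addR (m.G * m.wn + j * m.wc) m.wc (fun o => sgz p g * m.T p k q o) R')
      (m.ideal l (({ s' with R := R', qa := Function.update s'.qa k q } : Sta p).call l 1
        (m.G + j) g)) ∧
    (m.ideal l (({ s' with R := R', qa := Function.update s'.qa k q } : Sta p).call l 1
        (m.G + j) g)).qa k = q := by
  have hkl : k * (m.G + 2) = l := by
    rw [← hk]
    exact Nat.div_mul_cancel (Nat.dvd_of_mod_eq_zero hl)
  set s1 : Sta p := ({ s' with R := R', qa := Function.update s'.qa k q } : Sta p).call l 1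
        (m.G + j) g with hs1
  have md1 : s1.md l = 1 := by simp [hs1, Pool.Agent.Helper78.Ep.Mach.St.call]
  have nd1 : s1.nd l = m.G + j := by simp [hs1, Pool.Agent.Helper78.Ep.Mach.St.call]
  have sg1 : s1.sg l = g := by simp [hs1, Pool.Agent.Helper78.Ep.Mach.St.call]
  have q1 : s1.qa k = q := by simp [hs1, Pool.Agent.Helper78.Ep.Mach.St.call]
  have hR1 : s1.R = R' := rfl
  have u1 : Up m l s R' s1 := by
    refine Up.call ?_ _ _ _
    refine ⟨rfl, h.lev, fun k' hk' => ?_⟩
    have hne : k' ≠ k := by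
      rintro rfl
      omega
    show Function.update s'.qa k q k' = _
    rw [Function.update_of_ne hne]
    exact h.rest k' hk'
  rw [ideal_top hl md1 hj nd1, hk, q1, sg1, hR1]
  exact ⟨⟨rfl, u1.lev, u1.rest⟩, rfl⟩

/-! ### Registers -/

theorem addR_of_not {l n : ℕ} (c : ℕ → ZMod p) (R : ℕ → ZMod p) {j : ℕ}
    (h : ¬ (l ≤ j ∧ j < l + n)) : addR l n c R j = R j := by
  unfold addR
  rw [if_neg h]

theorem addR_zero (l n : ℕ) (R : ℕ → ZMod p) :
    addR l n (fun _ => 0) R = R := by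
  funext j
  simp [addR]

theorem addR_nil (l : ℕ) (c : ℕ → ZMod p) (R : ℕ → ZMod p) :
    addR l 0 c R = R := by
  funext j
  unfold addR
  rw [if_neg (by omega)]

theorem addR_add (l n : ℕ) (c c' : ℕ → ZMod p) (R : ℕ → ZMod p) :
    addR l n c' (addR l n c R) =
      addR l n (fun o => c o + c' o) R := by
  funext j
  simp only [addR]
  split_ifs
  · ring
  · rfl

theorem addR_congr {l n : ℕ} {c c' : ℕ → ZMod p} (h : ∀ o < n, c o = c' o) (R : ℕ → ZMod p) :
    addR l n c R = addR l n c' R := by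
  funext j
  simp only [addR]
  split_ifs with hj
  · rw [h _ (by omega)]
  · rfl

theorem addR_append (l n n' : ℕ) (c c' d : ℕ → ZMod p) (h1 : ∀ o < n, d o = c o)
    (h2 : ∀ o < n', d (n + o) = c' o) (R : ℕ → ZMod p) :
    addR (l + n) n' c' (addR l n c R) = addR l (n + n') d R := by
  funext j
  simp only [addR]
  by_cases ha : l ≤ j ∧ j < l + n
  · rw [if_neg (by omega), if_pos ha, if_pos (by omega), h1 _ (by omega)]
  · by_cases hb : l + n ≤ j ∧ j < l + n + n'
    · rw [if_pos hb, if_neg ha, if_pos (by omega), ← h2 _ (by omega)]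
      congr 2
      omega
    · rw [if_neg hb, if_neg ha, if_neg (by omega)]

theorem net2 [Fact p.Prime] {a n a' n' : ℕ} {c : ZMod p} (hc : c ≠ 0) (T f R : ℕ → ZMod p)
    (hd : ∀ j, a ≤ j ∧ j < a + n → ¬ (a' ≤ j ∧ j < a' + n')) :
    scaR a n c⁻¹ (addR a n
      (fun o => -1 * T o) (addR a' n' f
        (addR a n (fun o => 1 * T o)
          (scaR a n c R)))) =
      addR a' n' f R := by
  funext j
  simp only [addR, scaR]
  by_cases h1 : a ≤ j ∧ j < a + n
  · rw [if_pos h1, if_pos h1, if_neg (hd j h1), if_pos h1, if_pos h1, if_neg (hd j h1)]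
    field_simp
    ring
  · rw [if_neg h1, if_neg h1, if_neg h1, if_neg h1]

theorem cast_ne [Fact p.Prime] {w : ℕ} (hw : w < p - 1) : ((w + 1 : ℕ) : ZMod p) ≠ 0 := by
  intro h
  rw [ZMod.natCast_eq_zero_iff] at h
  have := Nat.le_of_dvd (by omega) h
  omega

/-- INNER. -/
theorem inner [Fact p.Prime] (N i q : ℕ) (F : ℕ → ℕ) (X Y D : ℕ → ZMod p) (hN : N < p - 1) :
    ∑ c ∈ range (p - 1), fhat p N F q
      (m.vars p i X fun o => ((c + 1 : ℕ) : ZMod p) * Y o + D o) = -fhat p N F q (m.vars p i X D) := by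
  rw [← fhat_sum p hN F q (fun j => if j < i * m.wn then 0 else Y (j - i * m.wn))]
  refine sum_congr rfl fun c _ => ?_
  congr 1
  funext j
  unfold Pool.Agent.Helper78.Ep.Mach.vars
  split_ifs
  · ring
  · ring

/-- The variables after the content is loaded. -/
theorem vars_load {i a n N : ℕ} (ha : i * m.wn ≤ a) (c : ZMod p) (T R : ℕ → ZMod p) {j : ℕ}
    (hN : N = i * m.wn + n) (hj : j < N) :
    m.vars p i (addR a n (fun o => 1 * T o) (scaR a n c R))
      (fun o => addR a n (fun o => 1 * T o) (scaR a n c R) (a + o)) j =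
    m.vars p i R (fun o => c * R (a + o) + T o) j := by
  unfold Pool.Agent.Helper78.Ep.Mach.vars
  split_ifs with h
  · simp only [addR, scaR]
    rw [if_neg (by omega), if_neg (by omega)]
  · simp only [addR, scaR]
    rw [if_pos (by omega), if_pos (by omega)]
    rw [show a + (j - i * m.wn) - a = j - i * m.wn by omega]
    ring

/-- One operation and the procedure of the level below. -/
def stp (m : Pool.Agent.Helper78.Ep.Mach) (l : ℕ) : ℕ → Sta p → Sta p :=
  fun j s => m.ideal l (m.op l j s)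

/-! ### The nodes before `G` -/

/-- The summands. -/
def fY (m : Pool.Agent.Helper78.Ep.Mach) (p k i π : ℕ) (R : ℕ → ZMod p) (w o : ℕ) : ZMod p :=
  fhat p (i * m.wn + m.E * m.wc) (m.F i π) o (m.vars p i R fun u =>
    ((w + 1 : ℕ) : ZMod p) * R (m.G * m.wn + u) + m.TE p k π u)

theorem fY_congr {k i π : ℕ} {R R' : ℕ → ZMod p} (hX : ∀ j < i * m.wn, R j = R' j)
    (hY : ∀ o < m.E * m.wc, R (m.G * m.wn + o) = R' (m.G * m.wn + o)) (w o : ℕ) :
    fY m p k i π R w o = fY m p k i π R' w o := by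
  unfold fY
  apply fhat_congr
  intro j hj
  unfold Pool.Agent.Helper78.Ep.Mach.vars
  split_ifs with h
  · exact hX j h
  · have h1 := hY (j - i * m.wn) (by omega)
    simp only [h1]

/-- The number of the operation. -/
def nm (m : Pool.Agent.Helper78.Ep.Mach) (p π w e : ℕ) : ℕ :=
  π * ((p - 1) * (2 * m.E + 3)) + (w * (2 * m.E + 3) + e)

theorem op_nm {l k : ℕ} (hl : l % (m.G + 2) = 0) (hk : l / (m.G + 2) = k)
    {s : Sta p} (hmd : s.md (l + 1) = 2) (hnd : s.nd (l + 1) < m.G) {R : ℕ → ZMod p}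
    {s' : Sta p} (h : Up m l s R s') {π w e : ℕ} (hw : w < p - 1) (he : e < 2 * m.E + 3) :
    m.op l (nm m p π w e) s' = m.opY l k π (w + 1) e s' := by
  unfold Pool.Agent.Helper78.Ep.Mach.op
  rw [if_pos hl, hk]
  unfold Pool.Agent.Helper78.Ep.Mach.opE
  rw [if_pos ⟨by rw [(h.lev _ le_rfl).1]; exact hmd, by rw [(h.lev _ le_rfl).2.1]; exact hnd⟩]
  have h1 : w * (2 * m.E + 3) + e < (p - 1) * (2 * m.E + 3) := by
    have h2 : (w + 1) * (2 * m.E + 3) ≤ (p - 1) * (2 * m.E + 3) := Nat.mul_le_mul_right _ hw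
    have h3 : (w + 1) * (2 * m.E + 3) = w * (2 * m.E + 3) + (2 * m.E + 3) := by ring
    omega
  have h4 : nm m p π w e / ((p - 1) * (2 * m.E + 3)) = π := div_eq_block h1
  have h5 : nm m p π w e % ((p - 1) * (2 * m.E + 3)) = w * (2 * m.E + 3) + e := mod_eq_block h1
  have h6 : nm m p π w e % (2 * m.E + 3) = e := by
    have : nm m p π w e = (π * (p - 1) + w) * (2 * m.E + 3) + e := by
      unfold nm
      ring
    rw [this]
    exact mod_eq_block he
  rw [h4, h5, h6, div_eq_block he]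

/-- The load of the groups. -/
theorem load {l k : ℕ} (hl : l % (m.G + 2) = 0) (hk : l / (m.G + 2) = k)
    {s : Sta p} (hmd : s.md (l + 1) = 2) (hnd : s.nd (l + 1) < m.G) {R : ℕ → ZMod p}
    {s' : Sta p} (h : Up m l s R s') {π w : ℕ} (hw : w < p - 1) : ∀ n ≤ m.E,
    Up m l s (addR (m.G * m.wn) (n * m.wc) (fun u => 1 * m.TE p k π u)
      (scaR (m.G * m.wn) (m.E * m.wc) ((w + 1 : ℕ) : ZMod p) R))
      (iter (fun e => stp m l (nm m p π w e)) (n + 1) s') := by
  intro n
  induction n with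
  | zero =>
    intro _
    rw [Nat.zero_mul, addR_nil]
    show Up m l s _ (stp m l (nm m p π w 0) s')
    unfold stp
    rw [op_nm hl hk hmd hnd h hw (by omega)]
    unfold Pool.Agent.Helper78.Ep.Mach.opY
    rw [if_pos rfl, h.hR]
    exact h.call0 _ _ _
  | succ n ih =>
    intro hn
    have h1 := ih (by omega)
    show Up m l s _ (stp m l (nm m p π w (n + 1)) (iter (fun e => stp m l (nm m p π w e))
      (n + 1) s'))
    set s1 := iter (fun e => stp m l (nm m p π w e)) (n + 1) s' with hs1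
    unfold stp
    rw [op_nm hl hk hmd hnd h1 hw (by omega)]
    unfold Pool.Agent.Helper78.Ep.Mach.opY
    rw [if_neg (by omega), if_pos (by omega), Nat.add_sub_cancel]
    have h2 := (h1.call1 hl hk s1.R (dig (2 ^ m.lam) π n) (j := n) (by omega) 0).1
    rw [h1.hR] at h2
    have h3 : addR (m.G * m.wn + n * m.wc) m.wc
        (fun o => sgz p 0 * m.T p k (dig (2 ^ m.lam) π n) o)
        (addR (m.G * m.wn) (n * m.wc) (fun u => 1 * m.TE p k π u)
          (scaR (m.G * m.wn) (m.E * m.wc) ((w + 1 : ℕ) : ZMod p) R)) =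
        addR (m.G * m.wn) ((n + 1) * m.wc) (fun u => 1 * m.TE p k π u)
          (scaR (m.G * m.wn) (m.E * m.wc) ((w + 1 : ℕ) : ZMod p) R) := by
      rw [show (n + 1) * m.wc = n * m.wc + m.wc by ring]
      apply addR_append
      · intro o _
        rfl
      · intro o ho
        show 1 * m.T p k (dig (2 ^ m.lam) π ((n * m.wc + o) / m.wc)) ((n * m.wc + o) % m.wc) = _
        rw [div_eq_block ho, mod_eq_block ho]
        rfl
    rw [h3] at h2
    rw [h1.hR]
    exact h2

/-- The operations for one factor. -/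
theorem turn [Fact p.Prime] {l k : ℕ} (hl : l % (m.G + 2) = 0) (hk : l / (m.G + 2) = k)
    {s : Sta p} (hmd : s.md (l + 1) = 2) (hnd : s.nd (l + 1) < m.G) {R : ℕ → ZMod p}
    {s' : Sta p} (h : Up m l s R s') {π w : ℕ} (hw : w < p - 1) :
    Up m l s (addR (m.lo (s.nd (l + 1))) (m.ln (s.nd (l + 1)))
      (fun o => sgz p (s.sg (l + 1)) * fY m p k (s.nd (l + 1)) π R w o) R)
      (iter (fun e => stp m l (nm m p π w e)) (2 * m.E + 3) s') := by
  have hlo : m.lo (s.nd (l + 1)) = s.nd (l + 1) * m.wn := by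
    unfold Pool.Agent.Helper78.Ep.Mach.lo
    rw [if_pos hnd]
  have hln : m.ln (s.nd (l + 1)) = m.wn := by
    unfold Pool.Agent.Helper78.Ep.Mach.ln
    rw [if_pos hnd]
  have hle : s.nd (l + 1) * m.wn + m.wn ≤ m.G * m.wn := by
    have : (s.nd (l + 1) + 1) * m.wn ≤ m.G * m.wn := Nat.mul_le_mul_right _ hnd
    have h3 : (s.nd (l + 1) + 1) * m.wn = s.nd (l + 1) * m.wn + m.wn := by ring
    omega
  have h1 := load hl hk hmd hnd h (π := π) hw m.E le_rfl
  set R1 := addR (m.G * m.wn) (m.E * m.wc) (fun u => 1 * m.TE p k π u)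
      (scaR (m.G * m.wn) (m.E * m.wc) ((w + 1 : ℕ) : ZMod p) R) with hR1
  set s1 := iter (fun e => stp m l (nm m p π w e)) (m.E + 1) s' with hs1
  -- the operation in the middle
  set R2 := addR (m.lo (s.nd (l + 1))) (m.ln (s.nd (l + 1)))
      (fun o => sgz p (s.sg (l + 1)) * fY m p k (s.nd (l + 1)) π R w o) R1 with hR2
  have h2 : Up m l s R2 (iter (fun e => stp m l (nm m p π w e)) (m.E + 2) s') := by
    show Up m l s _ (stp m l (nm m p π w (m.E + 1)) s1)
    unfold stp
    rw [op_nm hl hk hmd hnd h1 hw (by omega)]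
    unfold Pool.Agent.Helper78.Ep.Mach.opY
    rw [if_neg (by omega), if_neg (by omega), if_pos rfl, (h1.lev _ le_rfl).2.1,
      (h1.lev _ le_rfl).2.2]
    have e1 : addR (m.lo (s.nd (l + 1))) (m.ln (s.nd (l + 1))) (fun o => sgz p (s.sg (l + 1)) *
        fhat p (s.nd (l + 1) * m.wn + m.E * m.wc) (m.F (s.nd (l + 1)) π) o
          (m.vars p (s.nd (l + 1)) s1.R fun u => s1.R (m.G * m.wn + u))) s1.R = R2 := by
      rw [h1.hR, hR2]
      congr 1
      funext o
      congr 1
      unfold fY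
      apply fhat_congr
      intro j hj
      rw [hR1]
      exact vars_load (by omega) _ _ R rfl hj
    rw [e1]
    exact h1.call0 _ _ _
  -- unload
  have h3 : ∀ n ≤ m.E, Up m l s (addR (m.G * m.wn) (n * m.wc) (fun u => -1 * m.TE p k π u) R2)
      (iter (fun e => stp m l (nm m p π w e)) (m.E + 2 + n) s') := by
    intro n
    induction n with
    | zero =>
      intro _
      rw [Nat.zero_mul, addR_nil]
      exact h2
    | succ n ih =>
      intro hn
      have h4 := ih (by omega)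
      show Up m l s _ (stp m l (nm m p π w (m.E + 2 + n)) (iter (fun e =>
        stp m l (nm m p π w e)) (m.E + 2 + n) s'))
      set s2 := iter (fun e => stp m l (nm m p π w e)) (m.E + 2 + n) s' with hs2
      unfold stp
      rw [op_nm hl hk hmd hnd h4 hw (by omega)]
      unfold Pool.Agent.Helper78.Ep.Mach.opY
      rw [if_neg (by omega), if_neg (by omega), if_neg (by omega), if_pos (by omega),
        Nat.add_sub_cancel_left]
      have h5 := (h4.call1 hl hk s2.R (dig (2 ^ m.lam) π n) (j := n) (by omega) 1).1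
      rw [h4.hR] at h5
      have h6 : addR (m.G * m.wn + n * m.wc) m.wc
          (fun o => sgz p 1 * m.T p k (dig (2 ^ m.lam) π n) o)
          (addR (m.G * m.wn) (n * m.wc) (fun u => -1 * m.TE p k π u) R2) =
          addR (m.G * m.wn) ((n + 1) * m.wc) (fun u => -1 * m.TE p k π u) R2 := by
        rw [show (n + 1) * m.wc = n * m.wc + m.wc by ring]
        apply addR_append
        · intro o _
          rfl
        · intro o ho
          show -1 * m.T p k (dig (2 ^ m.lam) π ((n * m.wc + o) / m.wc)) ((n * m.wc + o) % m.wc) = _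
          rw [div_eq_block ho, mod_eq_block ho]
          rfl
      rw [h6] at h5
      rw [h4.hR]
      exact h5
  have h4 := h3 m.E le_rfl
  rw [show m.E + 2 + m.E = 2 * m.E + 2 by ring] at h4
  show Up m l s _ (stp m l (nm m p π w (2 * m.E + 2)) (iter (fun e =>
        stp m l (nm m p π w e)) (2 * m.E + 2) s'))
  set s3 := iter (fun e => stp m l (nm m p π w e)) (2 * m.E + 2) s' with hs3
  unfold stp
  rw [op_nm hl hk hmd hnd h4 hw (by omega)]
  unfold Pool.Agent.Helper78.Ep.Mach.opY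
  rw [if_neg (by omega), if_neg (by omega), if_neg (by omega), if_neg (by omega)]
  have e2 : scaR (m.G * m.wn) (m.E * m.wc) ((w + 1 : ℕ) : ZMod p)⁻¹ s3.R =
      addR (m.lo (s.nd (l + 1))) (m.ln (s.nd (l + 1)))
      (fun o => sgz p (s.sg (l + 1)) * fY m p k (s.nd (l + 1)) π R w o) R := by
    rw [h4.hR, hR2, hR1]
    refine net2 (cast_ne hw) _ _ R (fun j hj => ?_)
    rw [hlo, hln]
    omega
  rw [e2]
  exact h4.call0 _ _ _

/-- The operations for an itinerary. -/
theorem turns [Fact p.Prime] {l k : ℕ} (hl : l % (m.G + 2) = 0) (hk : l / (m.G + 2) = k)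
    {s : Sta p} (hmd : s.md (l + 1) = 2) (hnd : s.nd (l + 1) < m.G) {R : ℕ → ZMod p}
    {s' : Sta p} (h : Up m l s R s') (π : ℕ) : ∀ n ≤ p - 1,
    Up m l s (addR (m.lo (s.nd (l + 1))) (m.ln (s.nd (l + 1)))
      (fun o => sgz p (s.sg (l + 1)) * ∑ w ∈ range n, fY m p k (s.nd (l + 1)) π R w o) R)
      (iter (fun w => iter (fun e => stp m l (nm m p π w e)) (2 * m.E + 3)) n s') := by
  have hlo : m.lo (s.nd (l + 1)) = s.nd (l + 1) * m.wn := by
    unfold Pool.Agent.Helper78.Ep.Mach.lo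
    rw [if_pos hnd]
  have hln : m.ln (s.nd (l + 1)) = m.wn := by
    unfold Pool.Agent.Helper78.Ep.Mach.ln
    rw [if_pos hnd]
  have hle : s.nd (l + 1) * m.wn + m.wn ≤ m.G * m.wn := by
    have : (s.nd (l + 1) + 1) * m.wn ≤ m.G * m.wn := Nat.mul_le_mul_right _ hnd
    have h3 : (s.nd (l + 1) + 1) * m.wn = s.nd (l + 1) * m.wn + m.wn := by ring
    omega
  intro n
  induction n with
  | zero =>
    intro _
    have e : addR (m.lo (s.nd (l + 1))) (m.ln (s.nd (l + 1)))
        (fun o => sgz p (s.sg (l + 1)) *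
        ∑ w ∈ range 0, fY m p k (s.nd (l + 1)) π R w o) R = R := by
      rw [addR_congr (c' := fun _ => 0) (fun o _ => by simp)]
      exact addR_zero _ _ _
    rw [e]
    exact h
  | succ n ih =>
    intro hn
    have h1 := turn hl hk hmd hnd (ih (by omega)) (π := π) (w := n) (by omega)
    rw [addR_add] at h1
    have e : (fun o => sgz p (s.sg (l + 1)) * ∑ w ∈ range n, fY m p k (s.nd (l + 1)) π R w o +
        sgz p (s.sg (l + 1)) * fY m p k (s.nd (l + 1)) π
          (addR (m.lo (s.nd (l + 1))) (m.ln (s.nd (l + 1)))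
          (fun o => sgz p (s.sg (l + 1)) * ∑ w ∈ range n, fY m p k (s.nd (l + 1)) π R w o) R)
            n o) =
        fun o => sgz p (s.sg (l + 1)) *
          ∑ w ∈ range (n + 1), fY m p k (s.nd (l + 1)) π R w o := by
      funext o
      rw [fY_congr (R' := R) (fun j hj => addR_of_not _ _ (by rw [hlo]; omega))
        (fun j hj => addR_of_not _ _ (by rw [hlo, hln]; omega)), sum_range_succ]
      ring
    rw [e] at h1
    exact h1

/-- All itineraries. -/
theorem rounds [Fact p.Prime] {l k : ℕ} (hl : l % (m.G + 2) = 0) (hk : l / (m.G + 2) = k)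
    {s : Sta p} (hmd : s.md (l + 1) = 2) (hnd : s.nd (l + 1) < m.G)
    (hN : s.nd (l + 1) * m.wn + m.E * m.wc < p - 1) : ∀ n : ℕ,
    Up m l s (addR (m.lo (s.nd (l + 1))) (m.ln (s.nd (l + 1)))
      (fun o => -(sgz p (s.sg (l + 1)) * ∑ π ∈ range n,
        fhat p (s.nd (l + 1) * m.wn + m.E * m.wc) (m.F (s.nd (l + 1)) π) o
          (m.vars p (s.nd (l + 1)) s.R (m.TE p k π)))) s.R)
      (iter (fun π => iter (fun w => iter (fun e => stp m l (nm m p π w e)) (2 * m.E + 3))
        (p - 1)) n s) := by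
  have hlo : m.lo (s.nd (l + 1)) = s.nd (l + 1) * m.wn := by
    unfold Pool.Agent.Helper78.Ep.Mach.lo
    rw [if_pos hnd]
  intro n
  induction n with
  | zero =>
    have e : addR (m.lo (s.nd (l + 1))) (m.ln (s.nd (l + 1)))
        (fun o => -(sgz p (s.sg (l + 1)) * ∑ π ∈ range 0,
        fhat p (s.nd (l + 1) * m.wn + m.E * m.wc) (m.F (s.nd (l + 1)) π) o
          (m.vars p (s.nd (l + 1)) s.R (m.TE p k π)))) s.R = s.R := by
      rw [addR_congr (c' := fun _ => 0) (fun o _ => by simp)]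
      exact addR_zero _ _ _
    rw [e]
    exact Up.refl _ _
  | succ n ih =>
    have h1 := turns hl hk hmd hnd ih n (p - 1) le_rfl
    set R' := addR (m.lo (s.nd (l + 1))) (m.ln (s.nd (l + 1)))
      (fun o => -(sgz p (s.sg (l + 1)) * ∑ π ∈ range n,
        fhat p (s.nd (l + 1) * m.wn + m.E * m.wc) (m.F (s.nd (l + 1)) π) o
          (m.vars p (s.nd (l + 1)) s.R (m.TE p k π)))) s.R with hR'
    have e1 : ∀ o, ∑ w ∈ range (p - 1), fY m p k (s.nd (l + 1)) n R' w o =
        -fhat p (s.nd (l + 1) * m.wn + m.E * m.wc) (m.F (s.nd (l + 1)) n) o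
          (m.vars p (s.nd (l + 1)) s.R (m.TE p k n)) := by
      intro o
      unfold fY
      rw [inner _ _ _ _ _ (fun u => R' (m.G * m.wn + u)) _ hN]
      congr 1
      apply fhat_congr
      intro j _
      unfold Pool.Agent.Helper78.Ep.Mach.vars
      split_ifs with hj
      · rw [hR']
        exact addR_of_not _ _ (by rw [hlo]; omega)
      · rfl
    simp only [e1] at h1
    rw [hR', addR_add] at h1
    have e : (fun o => -(sgz p (s.sg (l + 1)) * ∑ π ∈ range n,
        fhat p (s.nd (l + 1) * m.wn + m.E * m.wc) (m.F (s.nd (l + 1)) π) o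
          (m.vars p (s.nd (l + 1)) s.R (m.TE p k π))) + sgz p (s.sg (l + 1)) *
          -fhat p (s.nd (l + 1) * m.wn + m.E * m.wc) (m.F (s.nd (l + 1)) n) o
          (m.vars p (s.nd (l + 1)) s.R (m.TE p k n))) =
        fun o => -(sgz p (s.sg (l + 1)) * ∑ π ∈ range (n + 1),
        fhat p (s.nd (l + 1) * m.wn + m.E * m.wc) (m.F (s.nd (l + 1)) π) o
          (m.vars p (s.nd (l + 1)) s.R (m.TE p k π))) := by
      funext o
      rw [sum_range_succ]
      ring
    rw [e] at h1
    exact h1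

/-! ### The nodes from `G` on -/

/-- The first register of the group used for the node `i`. -/
def gs (m : Pool.Agent.Helper78.Ep.Mach) (i : ℕ) : ℕ := m.G * m.wn + m.src i * m.wc

/-- The summands. -/
def fZ (m : Pool.Agent.Helper78.Ep.Mach) (p k i x : ℕ) (R : ℕ → ZMod p) (w o : ℕ) : ZMod p :=
  fhat p (m.G * m.wn + m.wc) (m.H x) o (m.vars p m.G R fun u => ((w + 1 : ℕ) : ZMod p) *
    R (gs m i + u) + m.T p k x u)

theorem fZ_congr {k i x : ℕ} {R R' : ℕ → ZMod p} (hX : ∀ j < m.G * m.wn, R j = R' j)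
    (hY : ∀ o < m.wc, R (gs m i + o) = R' (gs m i + o)) (w o : ℕ) :
    fZ m p k i x R w o = fZ m p k i x R' w o := by
  unfold fZ
  apply fhat_congr
  intro j hj
  unfold Pool.Agent.Helper78.Ep.Mach.vars
  split_ifs with h
  · exact hX j h
  · have h1 := hY (j - m.G * m.wn) (by omega)
    simp only [h1]

theorem src_le (i : ℕ) : m.src i ≤ m.E := by
  unfold Pool.Agent.Helper78.Ep.Mach.src
  have := Nat.mod_lt (i - m.G + 1) (by omega : 0 < m.E + 1)
  omega

theorem src_ne (hE : 0 < m.E) {j : ℕ} (hj : j ≤ m.E) : m.src (m.G + j) ≠ j := by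
  unfold Pool.Agent.Helper78.Ep.Mach.src
  rw [Nat.add_sub_cancel_left]
  rcases Nat.lt_or_ge j m.E with h | h
  · rw [Nat.mod_eq_of_lt (by omega)]
    omega
  · have : j = m.E := by omega
    rw [this, Nat.mod_self]
    omega

theorem gs_disj (hE : 0 < m.E) {j : ℕ} (hj : j ≤ m.E) (x : ℕ)
    (h : gs m (m.G + j) ≤ x ∧ x < gs m (m.G + j) + m.wc) :
    ¬ (m.G * m.wn + j * m.wc ≤ x ∧ x < m.G * m.wn + j * m.wc + m.wc) := by
  have h1 := src_ne hE hj
  unfold gs at h
  set t := m.src (m.G + j)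
  rcases Nat.lt_or_ge t j with h2 | h2
  · have h3 : (t + 1) * m.wc ≤ j * m.wc := Nat.mul_le_mul_right _ h2
    have h4 : (t + 1) * m.wc = t * m.wc + m.wc := by ring
    omega
  · have h3 : (j + 1) * m.wc ≤ t * m.wc := Nat.mul_le_mul_right _ (by omega)
    have h4 : (j + 1) * m.wc = j * m.wc + m.wc := by ring
    omega

/-- Three operations with the calls after them. -/
theorem tripleZ [Fact p.Prime] (hE : 0 < m.E) {l k : ℕ} (hl : l % (m.G + 2) = 0)
    (hk : l / (m.G + 2) = k) {s : Sta p} (hmd : s.md (l + 1) = 2) {j : ℕ} (hj : j ≤ m.E)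
    (hnd : s.nd (l + 1) = m.G + j) {R : ℕ → ZMod p} {s' : Sta p}
    (h : Up m l s R s') {w : ℕ} (hw : w < p - 1) :
    Up m l s (addR (m.G * m.wn + j * m.wc) m.wc
      (fun o => sgz p (s.sg (l + 1)) * fZ m p k (m.G + j) (s.qa (k + 1)) R w o) R)
      (stp m l (3 * w + 2) (stp m l (3 * w + 1) (stp m l (3 * w) s'))) := by
  have hkl : k * (m.G + 2) = l := by
    rw [← hk]
    exact Nat.div_mul_cancel (Nat.dvd_of_mod_eq_zero hl)
  have hk1 : l + 1 ≤ (k + 1) * (m.G + 2) := by
    have : (k + 1) * (m.G + 2) = k * (m.G + 2) + (m.G + 2) := by ring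
    omega
  have hopZ : ∀ {e : ℕ} {R' : ℕ → ZMod p} {s'' : Sta p}, Up m l s R' s'' → e < 3 * (p - 1) →
      m.op l e s'' = m.opZ l k e s'' := by
    intro e R' s'' h' he
    unfold Pool.Agent.Helper78.Ep.Mach.op
    rw [if_pos hl, hk]
    unfold Pool.Agent.Helper78.Ep.Mach.opE
    rw [if_neg (by rw [(h'.lev _ le_rfl).2.1]; omega),
      if_pos ⟨by rw [(h'.lev _ le_rfl).1]; exact hmd, by rw [(h'.lev _ le_rfl).2.1]; omega,
        by omega⟩]
  set x := s.qa (k + 1) with hx
  set c : ZMod p := ((w + 1 : ℕ) : ZMod p) with hc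
  set R1 := addR (gs m (m.G + j)) m.wc (fun o => 1 * m.T p k x o)
    (scaR (gs m (m.G + j)) m.wc c R) with hR1
  -- the first operation
  have h1 : Up m l s R1 (stp m l (3 * w) s') ∧ (stp m l (3 * w) s').qa k = x := by
    unfold stp
    rw [hopZ h (by omega)]
    unfold Pool.Agent.Helper78.Ep.Mach.opZ
    rw [if_pos (by omega), show 3 * w / 3 = w by omega, h.rest _ hk1, (h.lev _ le_rfl).2.1, hnd,
      h.hR]
    exact h.call1 hl hk _ _ (src_le _) 0
  obtain ⟨h1, q1⟩ := h1
  set s1 := stp m l (3 * w) s' with hs1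
  -- the second operation
  set R3 := addR (m.G * m.wn + j * m.wc) m.wc
    (fun o => sgz p (s.sg (l + 1)) * fZ m p k (m.G + j) x R w o) R1 with hR3
  set R4 := addR (gs m (m.G + j)) m.wc (fun o => -1 * m.T p k x o) R3 with hR4
  have h2 : Up m l s R4 (stp m l (3 * w + 1) s1) := by
    unfold stp
    rw [hopZ h1 (by omega)]
    unfold Pool.Agent.Helper78.Ep.Mach.opZ
    rw [if_neg (by omega), if_pos (by omega), h1.rest _ hk1, (h1.lev _ le_rfl).2.1,
      (h1.lev _ le_rfl).2.2, hnd, ← hx, lo_top, ln_top, h1.hR]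
    have e1 : addR (m.G * m.wn + j * m.wc) m.wc (fun o => sgz p (s.sg (l + 1)) *
        fhat p (m.G * m.wn + m.wc) (m.H x) o
          (m.vars p m.G R1 fun u => R1 (m.G * m.wn + m.src (m.G + j) * m.wc + u))) R1 = R3 := by
      rw [hR3]
      congr 1
      funext o
      congr 1
      unfold fZ
      apply fhat_congr
      intro u hu
      rw [hR1]
      exact vars_load (a := gs m (m.G + j)) (by unfold gs; omega) _ _ R rfl hu
    rw [e1]
    have h3 := (h1.call1 hl hk R3 x (src_le (m.G + j)) 1).1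
    have h4 : Function.update s1.qa k x = s1.qa := by
      rw [← q1]
      exact Function.update_eq_self _ _
    rw [h4] at h3
    exact h3
  set s2 := stp m l (3 * w + 1) s1 with hs2
  -- the third operation
  unfold stp
  rw [hopZ h2 (by omega)]
  unfold Pool.Agent.Helper78.Ep.Mach.opZ
  rw [if_neg (by omega), if_neg (by omega), show (3 * w + 2) / 3 = w by omega,
    (h2.lev _ le_rfl).2.1, hnd, h2.hR]
  have e2 : scaR (m.G * m.wn + m.src (m.G + j) * m.wc) m.wc c⁻¹ R4 =
      addR (m.G * m.wn + j * m.wc) m.wc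
      (fun o => sgz p (s.sg (l + 1)) * fZ m p k (m.G + j) x R w o) R := by
    rw [hR4, hR3, hR1]
    exact net2 (cast_ne hw) _ _ R (fun u hu => gs_disj hE hj u hu)
  rw [e2]
  exact h2.call0 _ _ _

/-- All triples. -/
theorem roundsZ [Fact p.Prime] (hE : 0 < m.E) {l k : ℕ} (hl : l % (m.G + 2) = 0)
    (hk : l / (m.G + 2) = k) {s : Sta p} (hmd : s.md (l + 1) = 2) {j : ℕ} (hj : j ≤ m.E)
    (hnd : s.nd (l + 1) = m.G + j) : ∀ w ≤ p - 1,
    Up m l s (addR (m.G * m.wn + j * m.wc) m.wc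
      (fun o => sgz p (s.sg (l + 1)) * ∑ w' ∈ range w,
        fZ m p k (m.G + j) (s.qa (k + 1)) s.R w' o) s.R)
      (iter (stp m l) (3 * w) s) := by
  intro w
  induction w with
  | zero =>
    intro _
    have e : addR (m.G * m.wn + j * m.wc) m.wc
        (fun o => sgz p (s.sg (l + 1)) * ∑ w' ∈ range 0,
        fZ m p k (m.G + j) (s.qa (k + 1)) s.R w' o) s.R = s.R := by
      rw [addR_congr (c' := fun _ => 0) (fun o _ => by simp)]
      exact addR_zero _ _ _
    rw [e]
    exact Up.refl _ _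
  | succ w ih =>
    intro hw
    have h1 := tripleZ hE hl hk hmd hj hnd (ih (by omega)) (w := w) (by omega)
    rw [addR_add] at h1
    have e : (fun o => sgz p (s.sg (l + 1)) * ∑ w' ∈ range w,
          fZ m p k (m.G + j) (s.qa (k + 1)) s.R w' o +
        sgz p (s.sg (l + 1)) * fZ m p k (m.G + j) (s.qa (k + 1))
          (addR (m.G * m.wn + j * m.wc) m.wc
            (fun o => sgz p (s.sg (l + 1)) * ∑ w' ∈ range w,
            fZ m p k (m.G + j) (s.qa (k + 1)) s.R w' o) s.R) w o) =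
        fun o => sgz p (s.sg (l + 1)) *
          ∑ w' ∈ range (w + 1), fZ m p k (m.G + j) (s.qa (k + 1)) s.R w' o := by
      funext o
      rw [fZ_congr (R' := s.R) (fun u hu => addR_of_not _ _ (by omega))
        (fun u hu => addR_of_not _ _ (gs_disj hE hj _ (by omega))), sum_range_succ]
      ring
    rw [e] at h1
    exact h1

theorem idle {l : ℕ} (hl : l % (m.G + 2) = 0) {s : Sta p} {n₀ : ℕ}
    (hn : ¬ (s.md (l + 1) = 2 ∧ s.nd (l + 1) ≤ m.G + m.E) ∨
      (m.G ≤ s.nd (l + 1) ∧ 3 * (p - 1) ≤ n₀)) {R : ℕ → ZMod p}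
    {s' : Sta p} (h : Up m l s R s') : ∀ n : ℕ,
    Up m l s R (iter (fun j => stp m l (n₀ + j)) n s') := by
  intro n
  induction n with
  | zero => exact h
  | succ n ih =>
    set s1 := iter (fun j => stp m l (n₀ + j)) n s' with hs1
    show Up m l s R (stp m l (n₀ + n) s1)
    have e1 : m.op l (n₀ + n) s1 = s1.call l 0 0 0 := by
      unfold Pool.Agent.Helper78.Ep.Mach.op
      rw [if_pos hl]
      unfold Pool.Agent.Helper78.Ep.Mach.opE
      rw [(ih.lev _ le_rfl).1, (ih.lev _ le_rfl).2.1]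
      rcases hn with hn | hn
      · rw [if_neg (by intro h0; exact hn ⟨h0.1, by omega⟩),
          if_neg (by intro h0; exact hn ⟨h0.1, by omega⟩)]
      · rw [if_neg (by omega), if_neg (by omega)]
    unfold stp
    rw [e1, ideal_idle (by simp [Pool.Agent.Helper78.Ep.Mach.St.call])]
    exact ih.call _ _ _

end

/-- ELEV. -/
theorem ELEV : Pool.Agent.Helper78.Ep.ELEV_stmt := by
  intro m p _ hm hd l hl s
  have e0 : (fun j s => m.ideal l (m.op l j s)) = stp (p := p) m l := rfl
  rw [e0]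
  have hp2 : 2 ≤ p := (Fact.out : p.Prime).two_le
  have e1 : m.cnt p l = 2 ^ (m.lam * m.E) * ((p - 1) * (2 * m.E + 3)) := by
    unfold Pool.Agent.Helper78.Ep.Mach.cnt
    rw [hl, ifz_zero]
  have hEw : (m.E + 1) * m.wc = m.E * m.wc + m.wc := by ring
  by_cases hn : s.md (l + 1) = 2 ∧ s.nd (l + 1) ≤ m.G + m.E
  · have e2 : m.ideal (l + 1) s = { s with
        R := addR (m.lo (s.nd (l + 1))) (m.ln (s.nd (l + 1))) (fun o =>
          -(sgz p (s.sg (l + 1)) * m.P p (l / (m.G + 2)) (s.nd (l + 1))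
            (s.qa (l / (m.G + 2) + 1)) s.R o)) s.R } := by
      show (if s.md (l + 1) = 2 ∧ _ then _ else _) = _
      rw [if_pos hn]
    rw [e2]
    set k := l / (m.G + 2) with hk
    by_cases hG : s.nd (l + 1) < m.G
    · have hN : s.nd (l + 1) * m.wn + m.E * m.wc < p - 1 := by
        have : s.nd (l + 1) * m.wn ≤ m.G * m.wn := Nat.mul_le_mul_right _ hG.le
        omega
      have h1 := (rounds hl hk.symm hn.1 hG hN (2 ^ (m.lam * m.E))).agree
      rw [e1, iter_mul]
      have e3 : ∀ o, ∑ π ∈ range (2 ^ (m.lam * m.E)),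
          fhat p (s.nd (l + 1) * m.wn + m.E * m.wc) (m.F (s.nd (l + 1)) π) o
            (m.vars p (s.nd (l + 1)) s.R (m.TE p k π)) =
          m.P p k (s.nd (l + 1)) (s.qa (k + 1)) s.R o := by
        intro o
        unfold Pool.Agent.Helper78.Ep.Mach.P
        rw [if_pos hG]
      simp only [e3] at h1
      have e4 : (fun d => iter (fun i => stp (p := p) m l (d * ((p - 1) * (2 * m.E + 3)) + i))
          ((p - 1) * (2 * m.E + 3))) =
          (fun π => iter (fun w => iter (fun e => stp m l (nm m p π w e)) (2 * m.E + 3))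
            (p - 1)) := by
        funext d s'
        rw [iter_mul]
        rfl
      rw [e4]
      exact h1
    · obtain ⟨j, hj⟩ : ∃ j, s.nd (l + 1) = m.G + j := ⟨s.nd (l + 1) - m.G, by omega⟩
      have hjE : j ≤ m.E := by omega
      have h1 := roundsZ hm.hE hl hk.symm hn.1 hjE hj (p - 1) le_rfl
      have hcnt : 3 * (p - 1) ≤ m.cnt p l := by
        rw [e1]
        have h2 : 1 ≤ 2 ^ (m.lam * m.E) := Nat.one_le_two_pow
        have h3 : 1 * ((p - 1) * (2 * m.E + 3)) ≤ 2 ^ (m.lam * m.E) * ((p - 1) * (2 * m.E + 3)) :=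
          Nat.mul_le_mul_right _ h2
        have h4 : (p - 1) * 3 ≤ (p - 1) * (2 * m.E + 3) := Nat.mul_le_mul_left _ (by omega)
        omega
      obtain ⟨d, hd'⟩ := Nat.exists_eq_add_of_le hcnt
      rw [hd', iter_add]
      have h6 := idle hl (Or.inr ⟨by omega, le_rfl⟩) h1 d
      have h7 := h6.agree
      have e3 : ∀ o, sgz p (s.sg (l + 1)) *
          ∑ w' ∈ range (p - 1), fZ m p k (m.G + j) (s.qa (k + 1)) s.R w' o =
          -(sgz p (s.sg (l + 1)) * m.P p k (s.nd (l + 1)) (s.qa (k + 1)) s.R o) := by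
        intro o
        unfold fZ
        rw [inner _ _ _ _ _ (fun u => s.R (gs m (m.G + j) + u)) _ (by omega)]
        unfold Pool.Agent.Helper78.Ep.Mach.P
        rw [if_neg hG]
        ring
      simp only [e3] at h7
      rw [hj] at h7 ⊢
      rw [lo_top, ln_top]
      exact h7
  · have e2 : m.ideal (l + 1) s = s := by
      show (if s.md (l + 1) = 2 ∧ _ then _ else if s.md (l + 1) = 1 ∧ _ then _ else _) = _
      rw [if_neg hn, if_neg]
      rw [hl]
      omega
    rw [e2]
    have h1 := (idle (n₀ := 0) hl (Or.inl hn) (Up.refl l s) (m.cnt p l)).agree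
    have e3 : (fun j => stp (p := p) m l (0 + j)) = stp m l := by
      funext j
      rw [Nat.zero_add]
    rw [e3] at h1
    exact h1

end Pool.Agent.Helper75.Ep
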